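import Pool.Agent.Helper25.HL.Goals4

/-!
# Project HL (MP_03bcbb_an), packet DF: the dual frame of a code
-/

set_option autoImplicit false

open Filter Topology

noncomputable section

namespace Pool.Agent.Helper94.HL

open Pool.Agent.Helper25.HL

theorem Rm_sq {p q : ℕ} (σ : Fin p → Fin q → Bool) (a : Fin p) (t : Fin q) :
    Rm σ a t * Rm σ a t = 1 / p := by
  unfold Rm
  rw [div_mul_div_comm, Real.mul_self_sqrt (Nat.cast_nonneg p)]
  split_ifs <;> norm_num

theorem bound_aux {p : ℕ} (hp : 2 ≤ p) (Dl : Fin p → Fin p → ℝ)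
    (hD : ∀ a b, |Dl a b| ≤ 1 / (p : ℝ) ^ 3) (w : Fin p → ℝ) :
    ∑ a, (∑ b, Dl a b * w b) ^ 2 ≤ 1 / (p : ℝ) ^ 4 * ∑ a, w a ^ 2 := by
  have hp0 : (0 : ℝ) < p := by exact_mod_cast (by omega : 0 < p)
  have h1 : ∀ a, (∑ b, Dl a b * w b) ^ 2 ≤ (p : ℝ) * (1 / (p : ℝ) ^ 3) ^ 2 * ∑ b, w b ^ 2 := by
    intro a
    refine (Finset.sum_mul_sq_le_sq_mul_sq Finset.univ (fun b => Dl a b) w).trans ?_
    refine mul_le_mul_of_nonneg_right ?_ (Finset.sum_nonneg fun b _ => sq_nonneg _)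
    calc ∑ b, Dl a b ^ 2 ≤ ∑ _b : Fin p, (1 / (p : ℝ) ^ 3) ^ 2 :=
          Finset.sum_le_sum fun b _ => by
            rw [← sq_abs]
            exact pow_le_pow_left₀ (abs_nonneg _) (hD a b) 2
      _ = (p : ℝ) * (1 / (p : ℝ) ^ 3) ^ 2 := by
          rw [Finset.sum_const, Finset.card_univ, Fintype.card_fin, nsmul_eq_mul]
  calc ∑ a, (∑ b, Dl a b * w b) ^ 2 ≤
      ∑ _a : Fin p, (p : ℝ) * (1 / (p : ℝ) ^ 3) ^ 2 * ∑ b, w b ^ 2 :=
        Finset.sum_le_sum fun a _ => h1 a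
    _ = (p : ℝ) * ((p : ℝ) * (1 / (p : ℝ) ^ 3) ^ 2 * ∑ b, w b ^ 2) := by
        rw [Finset.sum_const, Finset.card_univ, Fintype.card_fin, nsmul_eq_mul]
    _ = _ := by
        field_simp

theorem low_aux {p : ℕ} (hp : 2 ≤ p) (Dl : Fin p → Fin p → ℝ)
    (hD : ∀ a b, |Dl a b| ≤ 1 / (p : ℝ) ^ 3) (w v : Fin p → ℝ)
    (hv : ∀ a, v a = w a + ∑ b, Dl a b * w b) : ∑ a, w a ^ 2 ≤ 2 * ∑ a, v a ^ 2 := by
  have h1 := bound_aux hp Dl hD w
  have hp2 : (2 : ℝ) ≤ p := by exact_mod_cast hp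
  have h2 : 1 / (p : ℝ) ^ 4 ≤ 1 / 16 := by
    have h3 : (2 : ℝ) ^ 4 ≤ (p : ℝ) ^ 4 := pow_le_pow_left₀ (by norm_num) hp2 4
    have h4 : (16 : ℝ) ≤ (p : ℝ) ^ 4 := by norm_num at h3; exact h3
    exact one_div_le_one_div_of_le (by norm_num) h4
  have hw : 0 ≤ ∑ a, w a ^ 2 := Finset.sum_nonneg fun a _ => sq_nonneg _
  have h3 : ∑ a, (∑ b, Dl a b * w b) ^ 2 ≤ 1 / 16 * ∑ a, w a ^ 2 :=
    h1.trans (mul_le_mul_of_nonneg_right h2 hw)
  have h4 : ∑ a, (3 / 4 * w a ^ 2 - 3 * (∑ b, Dl a b * w b) ^ 2) ≤ ∑ a, v a ^ 2 := by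
    refine Finset.sum_le_sum fun a _ => ?_
    rw [hv a]
    nlinarith [sq_nonneg (w a / 2 + 2 * ∑ b, Dl a b * w b)]
  rw [Finset.sum_sub_distrib, ← Finset.mul_sum, ← Finset.mul_sum] at h4
  linarith

theorem df : S_DF := by
  intro p q σ hp hq h2
  classical
  have hp0 : (0 : ℝ) < p := by exact_mod_cast (by omega : 0 < p)
  have hq0 : (0 : ℝ) < q := by exact_mod_cast (by omega : 0 < q)
  let g : Fin p → Fin p → ℝ := fun a b => ∑ t, Rm σ a t * Rm σ b t
  have hgs : ∀ a b, g a b = g b a := by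
    intro a b
    exact Finset.sum_congr rfl fun t _ => mul_comm _ _
  have hgaa : ∀ a, g a a = (q : ℝ) / p := by
    intro a
    show ∑ t, Rm σ a t * Rm σ a t = _
    rw [Finset.sum_congr rfl fun t _ => Rm_sq σ a t, Finset.sum_const, Finset.card_univ,
      Fintype.card_fin, nsmul_eq_mul, mul_one_div]
  let G : Matrix (Fin p) (Fin p) ℝ := fun a b => (p : ℝ) / q * g a b
  let Dl : Fin p → Fin p → ℝ := fun a b => if a = b then 0 else (p : ℝ) / q * g a b
  have hGD : ∀ a b, G a b = (if a = b then 1 else 0) + Dl a b := by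
    intro a b
    show (p : ℝ) / q * g a b = (if a = b then 1 else 0) + if a = b then 0 else (p : ℝ) / q * g a b
    by_cases h : a = b
    · subst h
      rw [if_pos rfl, if_pos rfl, hgaa, add_zero]
      field_simp
    · rw [if_neg h, if_neg h, zero_add]
  have hD : ∀ a b, |Dl a b| ≤ 1 / (p : ℝ) ^ 3 := by
    intro a b
    show |if a = b then 0 else (p : ℝ) / q * g a b| ≤ _
    by_cases h : a = b
    · rw [if_pos h, abs_zero]
      positivity
    · rw [if_neg h, abs_mul, abs_of_pos (by positivity : (0 : ℝ) < (p : ℝ) / q)]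
      have h3 : (p : ℝ) ^ 4 * |g a b| ≤ q := h2 a b h
      have h4 : |g a b| ≤ q / (p : ℝ) ^ 4 := by
        rw [le_div_iff₀ (by positivity)]
        linarith
      calc (p : ℝ) / q * |g a b| ≤ (p : ℝ) / q * (q / (p : ℝ) ^ 4) := by gcongr
        _ = _ := by field_simp
  have hmul : ∀ (w : Fin p → ℝ) (a : Fin p), G.mulVec w a = w a + ∑ b, Dl a b * w b := by
    intro w a
    show ∑ b, G a b * w b = _
    rw [Finset.sum_congr rfl fun b _ => by rw [hGD a b, add_mul], Finset.sum_add_distrib]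
    congr 1
    simp
  have hdet : G.det ≠ 0 := by
    intro h0
    obtain ⟨w, hw0, hw⟩ := Matrix.exists_mulVec_eq_zero_iff.2 h0
    apply hw0
    have h3 := low_aux hp Dl hD w 0 (fun a => by rw [← hmul, hw])
    have h4 : ∑ a, w a ^ 2 ≤ 0 := by simpa using h3
    have h5 : ∑ a, w a ^ 2 = 0 := le_antisymm h4 (Finset.sum_nonneg fun a _ => sq_nonneg _)
    funext a
    have h6 := (Finset.sum_eq_zero_iff_of_nonneg fun a _ => sq_nonneg (w a)).1 h5 a
      (Finset.mem_univ a)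
    exact pow_eq_zero_iff (two_ne_zero) |>.1 h6
  have hu : IsUnit G.det := isUnit_iff_ne_zero.2 hdet
  have hHG : G⁻¹ * G = 1 := Matrix.nonsing_inv_mul G hu
  have hGH : G * G⁻¹ = 1 := Matrix.mul_nonsing_inv G hu
  have hinv : ∀ v : Fin p → ℝ, ∀ a, v a = (G⁻¹.mulVec v) a + ∑ b, Dl a b * (G⁻¹.mulVec v) b := by
    intro v a
    rw [← hmul, Matrix.mulVec_mulVec, hGH, Matrix.one_mulVec]
  let y : Fin q → Fin p → ℝ := fun t => G⁻¹.mulVec (fun b => Rm σ b t)
  have h1 : ∀ a b, ∑ t, Rm σ b t * y t a = if a = b then (q : ℝ) / p else 0 := by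
    intro a b
    have e1 : ∑ t, Rm σ b t * y t a = (q : ℝ) / p * (G⁻¹ * G) a b := by
      rw [Matrix.mul_apply, Finset.mul_sum]
      show ∑ t, Rm σ b t * ∑ c, G⁻¹ a c * Rm σ c t = _
      simp_rw [Finset.mul_sum]
      rw [Finset.sum_comm]
      refine Finset.sum_congr rfl fun c _ => ?_
      have e2 : G c b = (p : ℝ) / q * ∑ t, Rm σ c t * Rm σ b t := rfl
      rw [e2]
      have e3 : (q : ℝ) / p * (G⁻¹ a c * ((p : ℝ) / q * ∑ t, Rm σ c t * Rm σ b t)) =
          G⁻¹ a c * ∑ t, Rm σ c t * Rm σ b t := by field_simp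
      rw [e3, Finset.mul_sum]
      exact Finset.sum_congr rfl fun t _ => by ring
    rw [e1, hHG, Matrix.one_apply]
    split_ifs <;> ring
  have hcol : ∀ t, ∑ a, Rm σ a t ^ 2 = 1 := by
    intro t
    rw [Finset.sum_congr rfl fun a _ => by rw [pow_two, Rm_sq σ a t], Finset.sum_const,
      Finset.card_univ, Fintype.card_fin, nsmul_eq_mul]
    field_simp
  refine ⟨y, h1, fun t => ?_, fun a => ?_⟩
  · have h3 := low_aux hp Dl hD (y t) (fun b => Rm σ b t) (hinv _)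
    rw [hcol t] at h3
    have h4 := bound_aux hp Dl hD (y t)
    have e : ∀ a, y t a - Rm σ a t = - ∑ b, Dl a b * y t b := by
      intro a
      have := hinv (fun b => Rm σ b t) a
      show y t a - Rm σ a t = _
      rw [this]
      show y t a - (y t a + ∑ b, Dl a b * y t b) = _
      ring
    rw [Finset.sum_congr rfl fun a _ => by rw [e a, neg_sq]]
    calc ∑ a, (∑ b, Dl a b * y t b) ^ 2 ≤ 1 / (p : ℝ) ^ 4 * ∑ a, y t a ^ 2 := h4
      _ ≤ 1 / (p : ℝ) ^ 4 * (2 * 1) := by gcongr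
      _ ≤ (2 / (p : ℝ) ^ 2) ^ 2 := by
          have : (2 / (p : ℝ) ^ 2) ^ 2 = 1 / (p : ℝ) ^ 4 * 4 := by field_simp; norm_num
          rw [this]
          have h5 : (0 : ℝ) < 1 / (p : ℝ) ^ 4 := by positivity
          nlinarith
  · have h3 : ∑ t, y t a ^ 2 = (q : ℝ) / p * G⁻¹ a a := by
      calc ∑ t, y t a ^ 2 = ∑ t, ∑ b, G⁻¹ a b * (Rm σ b t * y t a) := by
            refine Finset.sum_congr rfl fun t _ => ?_
            rw [pow_two]
            have e : y t a = ∑ b, G⁻¹ a b * Rm σ b t := rfl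
            nth_rewrite 1 [e]
            rw [Finset.sum_mul]
            exact Finset.sum_congr rfl fun b _ => by ring
        _ = ∑ b, G⁻¹ a b * ∑ t, Rm σ b t * y t a := by
            rw [Finset.sum_comm]
            simp_rw [Finset.mul_sum]
        _ = ∑ b, G⁻¹ a b * (if a = b then (q : ℝ) / p else 0) :=
            Finset.sum_congr rfl fun b _ => by rw [h1 a b]
        _ = (q : ℝ) / p * G⁻¹ a a := by
            simp [mul_comm]
    have h4 : (G⁻¹ a a) ^ 2 ≤ 2 := by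
      have h5 := low_aux hp Dl hD (G⁻¹.mulVec (Pi.single a 1)) (Pi.single a 1) (hinv _)
      have h6 : G⁻¹ a a = (G⁻¹.mulVec (Pi.single a 1)) a := by simp
      have h7 : ∑ b, (Pi.single a (1 : ℝ) : Fin p → ℝ) b ^ 2 = 1 := by
        rw [Finset.sum_eq_single a]
        · simp
        · intro b _ hb
          rw [Pi.single_eq_of_ne hb]
          norm_num
        · intro h
          exact absurd (Finset.mem_univ a) h
      rw [h7, mul_one] at h5
      rw [h6]
      exact (Finset.single_le_sum (f := fun b => (G⁻¹.mulVec (Pi.single a 1)) b ^ 2)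
        (fun b _ => sq_nonneg _) (Finset.mem_univ a)).trans h5
    have h8 : G⁻¹ a a ≤ 4 := by nlinarith
    rw [h3]
    have h9 : (0 : ℝ) ≤ (q : ℝ) / p := by positivity
    nlinarith

end Pool.Agent.Helper94.HL
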