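import Pool.Agent.Helper25.HL.Goals3

/-!
# Project HL (MP_03bcbb_an), packet HB: the matrix acts on the level norm, with a loss
-/

set_option autoImplicit false

open Filter Topology

noncomputable section

namespace Pool.Agent.Helper94.HL

open Pool.Agent.Helper25.HL

section

variable {p q : ℕ} (σ : Fin p → Fin q → Bool)

theorem Kj_le_e2 (r : ℕ → ℝ) (j : ℕ) (z : (Fin p → ℂ) × (Fin q → ℂ)) :
    (Kj σ r j z) ^ 2 ≤ pq2 z := by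
  have h1 : Kj σ r j z ≤ Real.sqrt (pq2 z) := by
    unfold Kj
    split_ifs
    · exact le_rfl
    · exact KK_le_e2 σ _ z
  calc (Kj σ r j z) ^ 2 ≤ (Real.sqrt (pq2 z)) ^ 2 := pow_le_pow_left₀ (Kj_nn σ r j z) h1 2
    _ = pq2 z := Real.sq_sqrt (pq2_nn z)

/-- the square of the modified level norm -/
def L2 (J₁ J : ℕ) (r : ℕ → ℝ) (z : (Fin p → ℂ) × (Fin q → ℂ)) : ℝ :=
  (4 : ℝ) ^ J₁ / 4 ^ J * pq2 z + ∑ j ∈ Finset.Ioc J₁ J, (4 : ℝ) ^ j / 4 ^ J * (Kj σ r j z) ^ 2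

theorem split_sum {J₁ J : ℕ} (h : J₁ ≤ J) (g : ℕ → ℝ) :
    ∑ j ∈ Finset.range (J + 1), g j =
      ∑ j ∈ Finset.range (J₁ + 1), g j + ∑ j ∈ Finset.Ioc J₁ J, g j := by
  have h1 : Finset.Ioc J₁ J = Finset.Ico (J₁ + 1) (J + 1) := by
    ext j
    simp only [Finset.mem_Ioc, Finset.mem_Ico]
    omega
  rw [h1, Finset.range_eq_Ico, Finset.range_eq_Ico,
    Finset.sum_Ico_consecutive g (Nat.zero_le _) (by omega)]

theorem geom4 (m : ℕ) : ∑ j ∈ Finset.range (m + 1), (4 : ℝ) ^ j ≤ 4 / 3 * 4 ^ m := by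
  induction m with
  | zero => norm_num
  | succ m ih =>
    rw [Finset.sum_range_succ]
    have : (0 : ℝ) < 4 ^ m := by positivity
    rw [pow_succ]
    linarith

theorem lnm_sq (J : ℕ) (r : ℕ → ℝ) (z : (Fin p → ℂ) × (Fin q → ℂ)) :
    (lnm σ J r z) ^ 2 = ∑ j ∈ Finset.range (J + 1), (4 : ℝ) ^ j / 4 ^ J * (Kj σ r j z) ^ 2 := by
  unfold lnm
  rw [Real.sq_sqrt (Finset.sum_nonneg fun j _ => by positivity)]

theorem lnm_le_L2 {J₁ J : ℕ} (h : J₁ ≤ J) (r : ℕ → ℝ) (z : (Fin p → ℂ) × (Fin q → ℂ)) :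
    (lnm σ J r z) ^ 2 ≤ 4 / 3 * L2 σ J₁ J r z := by
  rw [lnm_sq, split_sum h]
  unfold L2
  have h1 : ∑ j ∈ Finset.range (J₁ + 1), (4 : ℝ) ^ j / 4 ^ J * (Kj σ r j z) ^ 2 ≤
      4 / 3 * ((4 : ℝ) ^ J₁ / 4 ^ J * pq2 z) := by
    calc ∑ j ∈ Finset.range (J₁ + 1), (4 : ℝ) ^ j / 4 ^ J * (Kj σ r j z) ^ 2 ≤
        ∑ j ∈ Finset.range (J₁ + 1), (4 : ℝ) ^ j / 4 ^ J * pq2 z :=
          Finset.sum_le_sum fun j _ => by
            have := Kj_le_e2 σ r j z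
            gcongr
      _ = (∑ j ∈ Finset.range (J₁ + 1), (4 : ℝ) ^ j) / 4 ^ J * pq2 z := by
          rw [← Finset.sum_mul, Finset.sum_div]
      _ ≤ (4 / 3 * 4 ^ J₁) / 4 ^ J * pq2 z := by
          have := geom4 J₁
          have := pq2_nn z
          gcongr
      _ = _ := by ring
  have h2 : 0 ≤ ∑ j ∈ Finset.Ioc J₁ J, (4 : ℝ) ^ j / 4 ^ J * (Kj σ r j z) ^ 2 :=
    Finset.sum_nonneg fun j _ => by positivity
  linarith

theorem L2_le_lnm {J₁ J : ℕ} (h : J₁ ≤ J) (r : ℕ → ℝ) (z : (Fin p → ℂ) × (Fin q → ℂ)) :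
    L2 σ J₁ J r z ≤ 4 ^ J₁ * (lnm σ J r z) ^ 2 := by
  rw [lnm_sq, split_sum h]
  unfold L2
  have h0 : (4 : ℝ) ^ 0 / 4 ^ J * (Kj σ r 0 z) ^ 2 ≤
      ∑ j ∈ Finset.range (J₁ + 1), (4 : ℝ) ^ j / 4 ^ J * (Kj σ r j z) ^ 2 :=
    Finset.single_le_sum (f := fun j => (4 : ℝ) ^ j / 4 ^ J * (Kj σ r j z) ^ 2)
      (fun j _ => by positivity) (Finset.mem_range.2 (Nat.succ_pos J₁))
  have h1 : (Kj σ r 0 z) ^ 2 = pq2 z := by
    unfold Kj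
    rw [if_pos rfl, Real.sq_sqrt (pq2_nn z)]
  rw [h1, pow_zero] at h0
  have h2 : 0 ≤ ∑ j ∈ Finset.Ioc J₁ J, (4 : ℝ) ^ j / 4 ^ J * (Kj σ r j z) ^ 2 :=
    Finset.sum_nonneg fun j _ => by positivity
  have h3 : (1 : ℝ) ≤ 4 ^ J₁ := one_le_pow₀ (by norm_num)
  have h4 : (4 : ℝ) ^ J₁ / 4 ^ J * pq2 z = 4 ^ J₁ * (1 / 4 ^ J * pq2 z) := by ring
  rw [h4, mul_add]
  have h5 := mul_le_mul_of_nonneg_left h0 (by positivity : (0 : ℝ) ≤ 4 ^ J₁)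
  have h6 : ∑ j ∈ Finset.Ioc J₁ J, (4 : ℝ) ^ j / 4 ^ J * (Kj σ r j z) ^ 2 ≤
      4 ^ J₁ * ∑ j ∈ Finset.Ioc J₁ J, (4 : ℝ) ^ j / 4 ^ J * (Kj σ r j z) ^ 2 :=
    le_mul_of_one_le_left h2 h3
  linarith

end

/-- **HB.** -/
theorem hb (h0 : S_H0) (h1 : S_H1) : S_HB := by
  intro n N F p q σ J₁ J r z hr hJ hrr
  set w : Fin N → (Fin p → ℂ) × (Fin q → ℂ) := fun i => ∑ j, F.a j i • z j with hw
  have hP : ∑ i, pq2 (w i) ≤ 4 * ∑ j, pq2 (z j) := h0 n N F p q z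
  set Y : ℕ → ℝ := fun j => if j = J₁ then ∑ i, pq2 (z i) else ∑ i, (Kj σ r j (z i)) ^ 2 with hY
  -- one step
  have hstep : ∀ j, J₁ ≤ j → j < J → ∑ i, (Kj σ r (j + 1) (w i)) ^ 2 ≤ 4 * Y j := by
    intro j hj1 hj2
    rcases Nat.eq_or_lt_of_le hj1 with h | h
    · rw [hY]
      simp only [h.symm, if_true]
      exact (Finset.sum_le_sum fun i _ => Kj_le_e2 σ r _ (w i)).trans hP
    · rw [hY]
      have hne : j ≠ J₁ := by omega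
      simp only [hne, if_false]
      have e1 : ∀ z : (Fin p → ℂ) × (Fin q → ℂ), Kj σ r (j + 1) z = KK σ (r (j + 1)) z := by
        intro z
        unfold Kj
        rw [if_neg (by omega)]
      have e2 : ∀ z : (Fin p → ℂ) × (Fin q → ℂ), Kj σ r j z = KK σ (r j) z := by
        intro z
        unfold Kj
        rw [if_neg (by omega)]
      simp only [e1, e2]
      exact h1 n N F p q σ z (r j) (r (j + 1)) (hr _) (hr _) (hrr j (by omega) hj2)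
  -- the sum
  have hsum : ∀ J' : ℕ, J₁ ≤ J' → J' ≤ J →
      ∑ j ∈ Finset.Ioc J₁ J', (4 : ℝ) ^ j / 4 ^ J * ∑ i, (Kj σ r j (w i)) ^ 2 +
        16 * ((4 : ℝ) ^ J' / 4 ^ J * Y J') ≤
      16 * ((4 : ℝ) ^ J₁ / 4 ^ J * ∑ i, pq2 (z i) +
        ∑ j ∈ Finset.Ioc J₁ J', (4 : ℝ) ^ j / 4 ^ J * ∑ i, (Kj σ r j (z i)) ^ 2) := by
    intro J' hJ'
    induction J', hJ' using Nat.le_induction with
    | base =>
      intro _
      rw [Finset.Ioc_self, Finset.sum_empty, Finset.sum_empty, hY]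
      simp
    | succ m hm ih =>
      intro hmJ
      have h3 := ih (by omega)
      have h4 := hstep m hm (by omega)
      have e1 : Finset.Ioc J₁ (m + 1) = insert (m + 1) (Finset.Ioc J₁ m) := by
        ext j
        simp only [Finset.mem_Ioc, Finset.mem_insert]
        omega
      have hnm : m + 1 ∉ Finset.Ioc J₁ m := by
        simp only [Finset.mem_Ioc]
        omega
      rw [e1, Finset.sum_insert hnm, Finset.sum_insert hnm]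
      have e2 : Y (m + 1) = ∑ i, (Kj σ r (m + 1) (z i)) ^ 2 := by
        rw [hY]
        have hne : m + 1 ≠ J₁ := by omega
        simp only [hne, if_false]
      rw [e2]
      have h5 : (4 : ℝ) ^ (m + 1) / 4 ^ J * ∑ i, (Kj σ r (m + 1) (w i)) ^ 2 ≤
          16 * ((4 : ℝ) ^ m / 4 ^ J * Y m) := by
        calc (4 : ℝ) ^ (m + 1) / 4 ^ J * ∑ i, (Kj σ r (m + 1) (w i)) ^ 2 ≤
            (4 : ℝ) ^ (m + 1) / 4 ^ J * (4 * Y m) := by gcongr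
          _ = _ := by rw [pow_succ]; ring
      linarith
  have hLw : ∑ i, L2 σ J₁ J r (w i) ≤ 20 * ∑ i, L2 σ J₁ J r (z i) := by
    have e : ∀ x : Fin N → (Fin p → ℂ) × (Fin q → ℂ), ∑ i, L2 σ J₁ J r (x i) =
        (4 : ℝ) ^ J₁ / 4 ^ J * ∑ i, pq2 (x i) +
        ∑ j ∈ Finset.Ioc J₁ J, (4 : ℝ) ^ j / 4 ^ J * ∑ i, (Kj σ r j (x i)) ^ 2 := by
      intro x
      unfold L2
      rw [Finset.sum_add_distrib, ← Finset.mul_sum, Finset.sum_comm]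
      simp only [← Finset.mul_sum]
    rw [e, e]
    have h3 := hsum J hJ le_rfl
    have h4 : 0 ≤ Y J := by
      rw [hY]
      dsimp only
      split_ifs
      · exact Finset.sum_nonneg fun i _ => pq2_nn _
      · exact Finset.sum_nonneg fun i _ => by positivity
    have h5 : (4 : ℝ) ^ J₁ / 4 ^ J * ∑ i, pq2 (w i) ≤
        4 * ((4 : ℝ) ^ J₁ / 4 ^ J * ∑ i, pq2 (z i)) := by
      calc (4 : ℝ) ^ J₁ / 4 ^ J * ∑ i, pq2 (w i) ≤
          (4 : ℝ) ^ J₁ / 4 ^ J * (4 * ∑ i, pq2 (z i)) := by gcongr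
        _ = _ := by ring
    have h6 : 0 ≤ (4 : ℝ) ^ J / 4 ^ J * Y J := by positivity
    have h7 : 0 ≤ ∑ j ∈ Finset.Ioc J₁ J, (4 : ℝ) ^ j / 4 ^ J * ∑ i, (Kj σ r j (z i)) ^ 2 :=
      Finset.sum_nonneg fun j _ => by positivity
    linarith
  calc ∑ i, (lnm σ J r (w i)) ^ 2 ≤ ∑ i, 4 / 3 * L2 σ J₁ J r (w i) :=
        Finset.sum_le_sum fun i _ => lnm_le_L2 σ hJ r (w i)
    _ = 4 / 3 * ∑ i, L2 σ J₁ J r (w i) := by rw [Finset.mul_sum]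
    _ ≤ 4 / 3 * (20 * ∑ i, L2 σ J₁ J r (z i)) := by gcongr
    _ ≤ 4 / 3 * (20 * ∑ i, 4 ^ J₁ * (lnm σ J r (z i)) ^ 2) := by
        have : ∑ i, L2 σ J₁ J r (z i) ≤ ∑ i, 4 ^ J₁ * (lnm σ J r (z i)) ^ 2 :=
          Finset.sum_le_sum fun i _ => L2_le_lnm σ hJ r (z i)
        gcongr
    _ = (80 / 3) * (4 ^ J₁ * ∑ i, (lnm σ J r (z i)) ^ 2) := by rw [← Finset.mul_sum]; ring
    _ ≤ 27 * (4 ^ J₁ * ∑ i, (lnm σ J r (z i)) ^ 2) := by
        have : 0 ≤ 4 ^ J₁ * ∑ i, (lnm σ J r (z i)) ^ 2 := by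
          have : 0 ≤ ∑ i, (lnm σ J r (z i)) ^ 2 := Finset.sum_nonneg fun i _ => by positivity
          positivity
        linarith
    _ = _ := by ring

end Pool.Agent.Helper94.HL
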